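import Mathlib
import Pool.Agent.Helper685.Pack.Final
import Pool.Agent.Helper685.Pack.Exist

set_option autoImplicit false

open MeasureTheory
open scoped ENNReal

namespace Pool.Agent.Results.MP_642e38_co.FiftyFourDisks

/-- The Euclidean plane. -/
abbrev Plane := EuclideanSpace ℝ (Fin 2)

/-- The unit disks centred at the points `c i` form a packing. -/
def IsPacking {n : ℕ} (c : Fin n → Plane) : Prop :=
  Pairwise fun j k => (2 : ℝ) ≤ dist (c j) (c k)

/-- The area of the union of the disks of radius `r` about the points `c i`. -/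
noncomputable def area {n : ℕ} (r : ℝ) (c : Fin n → Plane) : ℝ≥0∞ :=
  volume (⋃ i, Metric.closedBall (c i) r)

/-- The packing with centres `c i` is densest with parameter `r`. -/
def IsDensest {n : ℕ} (r : ℝ) (c : Fin n → Plane) : Prop :=
  IsPacking c ∧ ∀ x : Fin n → Plane, IsPacking x → area r c ≤ area r x

/-- All centres lie in one triangular lattice of minimal distance `2`, in any position. -/
def IsSubsetOfHexagonal {n : ℕ} (c : Fin n → Plane) : Prop :=
  ∃ p u v : Plane, ‖u‖ = 2 ∧ ‖v‖ = 2 ∧ ‖u - v‖ = 2 ∧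
    ∀ i, ∃ a b : ℤ, c i = p + (a : ℝ) • u + (b : ℝ) • v

open Pool.Agent.Helper685.Pack Real in
/-- For every `r ≥ 200000` there is a densest packing of `54` unit disks with parameter `r`, and
no such packing is a subset of the hexagonal packing. -/
theorem result (r : ℝ) (hr : 200000 ≤ r) :
    (∃ c : Fin 54 → Plane, IsDensest r c) ∧
      ∀ c : Fin 54 → Plane, IsDensest r c → ¬ IsSubsetOfHexagonal c := by
  have hpi := pi_pos
  have hpi1 := pi_gt_d2
  have hpi2 := pi_lt_d2
  have hr0 : 0 < r := by linarith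
  have hupp : volume (U x0 r) ≤ ENNReal.ofReal (π * r ^ 2 + 44.567 * r + 64 * π) := by
    refine (area_le x0 x0_norm (by linarith)).trans (ENNReal.ofReal_le_ofReal ?_)
    have := upper
    nlinarith
  have hfar : ∀ x : Fin 54 → EuclideanSpace ℝ (Fin 2), (∃ i j, (30 : ℝ) ≤ dist (x i) (x j)) →
      volume (U x0 r) < volume (U x r) := by
    rintro x ⟨i, j, hij⟩
    have h1 := far_area x (r := r) (D := 30) (by norm_num) (by linarith) hij
    refine lt_of_le_of_lt hupp (lt_of_lt_of_le ?_ h1)
    rw [ENNReal.ofReal_lt_ofReal_iff (by positivity)]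
    nlinarith
  constructor
  · obtain ⟨c, hsep, -, -, hmin⟩ := exists_min r 30 x0 x0_sep hfar
    exact ⟨c, hsep, fun x hx => hmin x hx⟩
  · rintro c' ⟨hsep', hmin'⟩ ⟨p, u, v, hu, hv, huv, hlat'⟩
    have hle' : volume (U c' r) ≤ volume (U x0 r) := hmin' x0 x0_sep
    -- translate so that the first centre is the origin
    set c : Fin 54 → EuclideanSpace ℝ (Fin 2) := fun i => c' i + (-c' 0) with hc
    have hUc : volume (U c r) = volume (U c' r) := U_translate c' (-c' 0) r
    have hc0 : c 0 = 0 := by simp [hc]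
    have hdist : ∀ i j, dist (c i) (c j) = dist (c' i) (c' j) := by
      intro i j; simp [hc]
    have hcn : ∀ i, ‖c i‖ ≤ 30 := by
      intro i
      by_contra hlt
      push Not at hlt
      have h1 : (30 : ℝ) ≤ dist (c' i) (c' 0) := by
        rw [← hdist, hc0, dist_zero_right]; exact hlt.le
      exact absurd hle' (not_le.2 (hfar c' ⟨i, 0, h1⟩))
    have hinj : Function.Injective c := by
      intro i j hij
      by_contra hne
      have h1 : (2 : ℝ) ≤ dist (c' i) (c' j) := hsep' hne
      rw [← hdist, hij, dist_self] at h1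
      norm_num at h1
    have hlat : ∀ i, ∃ a b : ℤ, c i = (p - c' 0) + ((2 : ℝ) * (a : ℝ)) • ((1 / 2 : ℝ) • u) +
        ((2 : ℝ) * (b : ℝ)) • ((1 / 2 : ℝ) • v) := by
      intro i
      obtain ⟨a, b, hab⟩ := hlat' i
      refine ⟨a, b, ?_⟩
      simp only [hc]
      rw [hab, smul_smul, smul_smul, show (2 : ℝ) * (a : ℝ) * (1 / 2) = a by ring,
        show (2 : ℝ) * (b : ℝ) * (1 / 2) = b by ring]
      abel
    have hu1 : ‖(1 / 2 : ℝ) • u‖ = 1 := by rw [norm_smul, hu]; norm_num
    have hv1 : ‖(1 / 2 : ℝ) • v‖ = 1 := by rw [norm_smul, hv]; norm_num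
    have huv1 : ‖(1 / 2 : ℝ) • u - (1 / 2 : ℝ) • v‖ = 1 := by
      rw [← smul_sub, norm_smul, huv]; norm_num
    have hl := lattice_lower c hinj (p - c' 0) _ _ hu1 hv1 huv1 hlat
    have hge := area_ge c (r := r) (R := 30) hcn (by linarith) hr0 hc0
    rw [hUc] at hge
    have hle := hge.trans (hle'.trans hupp)
    rw [ENNReal.ofReal_le_ofReal_iff (by positivity)] at hle
    have h2 : r * 44.6 ≤ r * ∫ θ in (-π)..π, sp c θ :=
      mul_le_mul_of_nonneg_left hl hr0.le
    nlinarith

end Pool.Agent.Results.MP_642e38_co.FiftyFourDisks
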